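import Mathlib
import Pool.Agent.Y201.LI.Stm6

/-!
Project LI, part 6: linear Noether normalization for cones (helper454, job LI6-NOETH).
-/

set_option autoImplicit false

namespace Pool.Agent.Y454.LI

open MvPolynomial Pool.Agent.TH314.PD Pool.Agent.Y201.LI

noncomputable section

variable {M : Type} [Field M] [Algebra ℂ M]

theorem eval_eq {σ : Type} (η : σ → ℂ) (H : MvPolynomial σ ℂ) : eval η H = aeval η H := rfl

/-- homogenization -/
theorem homog {r : ℕ} (lam : Fin (r + 1) → M) (j₀ : Fin (r + 1)) (hj : lam j₀ ≠ 0)
    (P : MvPolynomial (Fin r) ℂ) (hP : P ≠ 0)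
    (h0 : aeval (fun l => lam (j₀.succAbove l) / lam j₀) P = 0) :
    ∃ (e : ℕ) (H : MvPolynomial (Fin (r + 1)) ℂ), H.IsHomogeneous e ∧ H ≠ 0 ∧
      aeval lam H = 0 := by
  refine ⟨P.totalDegree, ∑ n ∈ Finset.range (P.totalDegree + 1),
    rename j₀.succAbove (homogeneousComponent n P) * X j₀ ^ (P.totalDegree - n), ?_, ?_, ?_⟩
  · refine IsHomogeneous.sum _ _ _ fun n hn => ?_
    have h1 : (rename j₀.succAbove (homogeneousComponent n P)).IsHomogeneous n :=
      (homogeneousComponent_isHomogeneous n P).rename_isHomogeneous
    have h2 : ((X j₀ : MvPolynomial (Fin (r + 1)) ℂ) ^ (P.totalDegree - n)).IsHomogeneous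
        (P.totalDegree - n) := isHomogeneous_X_pow _ _
    have h3 := h1.mul h2
    have h4 : n + (P.totalDegree - n) = P.totalDegree := by
      have := Finset.mem_range.1 hn
      omega
    rw [h4] at h3
    exact h3
  · intro hc
    apply hP
    have h1 : aeval (j₀.insertNth (1 : MvPolynomial (Fin r) ℂ) X)
        (∑ n ∈ Finset.range (P.totalDegree + 1),
          rename j₀.succAbove (homogeneousComponent n P) * X j₀ ^ (P.totalDegree - n)) = P := by
      rw [map_sum]
      conv_rhs => rw [← sum_homogeneousComponent (φ := P)]
      refine Finset.sum_congr rfl fun n _ => ?_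
      rw [map_mul, map_pow, aeval_X, Fin.insertNth_apply_same, one_pow, mul_one, aeval_rename]
      have h2 : (j₀.insertNth (1 : MvPolynomial (Fin r) ℂ) X : Fin (r + 1) → MvPolynomial (Fin r) ℂ) ∘
          j₀.succAbove = X := by
        funext l
        exact Fin.insertNth_apply_succAbove _ _ _ _
      rw [h2]
      exact aeval_X_left_apply _
    rw [← h1, hc, map_zero]
  · rw [map_sum]
    have h1 : ∀ n ∈ Finset.range (P.totalDegree + 1),
        aeval lam (rename j₀.succAbove (homogeneousComponent n P) * X j₀ ^ (P.totalDegree - n)) =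
          lam j₀ ^ P.totalDegree *
            aeval (fun l => lam (j₀.succAbove l) / lam j₀) (homogeneousComponent n P) := by
      intro n hn
      rw [map_mul, map_pow, aeval_X, aeval_rename]
      have h2 : lam ∘ j₀.succAbove = fun l => lam j₀ * (lam (j₀.succAbove l) / lam j₀) := by
        funext l
        rw [Function.comp_apply, mul_div_cancel₀ _ hj]
      rw [h2, aeval_smul_form (homogeneousComponent_isHomogeneous n P)]
      have h4 : P.totalDegree = n + (P.totalDegree - n) := by
        have := Finset.mem_range.1 hn
        omega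
      conv_rhs => rw [h4, pow_add]
      ring
    rw [Finset.sum_congr rfl h1, ← Finset.mul_sum, ← map_sum, sum_homogeneousComponent, h0,
      mul_zero]

/-- the induction -/
theorem noeth_aux (K : IntermediateField ℂ M) (k : ℕ) (hK : Algebra.trdeg ℂ K ≤ (k : Cardinal)) :
    ∀ (r : ℕ) (lam : Fin r → M), (∀ i j, lam i / lam j ∈ K) →
      ∃ h : Fin (k + 1) → Fin r → ℂ, Misses lam h := by
  intro r
  induction r with
  | zero =>
    intro lam _
    exact ⟨fun _ _ => 0, fun η _ _ => Subsingleton.elim _ _⟩
  | succ r ih =>
    intro lam hlam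
    by_cases hl : ∀ j, lam j = 0
    · refine ⟨fun _ _ => 0, fun η h _ => ?_⟩
      funext i
      have h1 := h 1 (X i) (isHomogeneous_X _ _) (by rw [aeval_X]; exact hl i)
      rw [eval_X] at h1
      exact h1
    rw [not_forall] at hl
    obtain ⟨j₀, hj⟩ := hl
    rcases Nat.lt_or_ge k r with hkr | hkr
    · -- a relation
      let y : Fin r → K := fun l => ⟨lam (j₀.succAbove l) / lam j₀, hlam _ _⟩
      have hdep : ¬ AlgebraicIndependent ℂ y := by
        intro hind
        have h1 := hind.lift_cardinalMk_le_trdeg
        rw [Cardinal.mk_fin, Cardinal.lift_natCast] at h1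
        have h2 : Cardinal.lift.{0} (Algebra.trdeg ℂ K) ≤ (k : Cardinal) := by
          rw [Cardinal.lift_id]
          exact hK
        have h3 := h1.trans h2
        have h4 : r ≤ k := by exact_mod_cast h3
        omega
      rw [algebraicIndependent_iff] at hdep
      push Not at hdep
      obtain ⟨P, hP0, hP⟩ := hdep
      have hP1 : aeval (fun l => lam (j₀.succAbove l) / lam j₀) P = 0 := by
        have h1 := congrArg K.val hP0
        rw [comp_aeval_apply, map_zero] at h1
        exact h1
      obtain ⟨e, H, hH, hH0, hHl⟩ := homog lam j₀ hj P hP hP1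
      -- the centre of the projection
      obtain ⟨v, hv⟩ : ∃ v : Fin (r + 1) → ℂ, eval v (H * X j₀) ≠ 0 := by
        by_contra hc
        push Not at hc
        have h1 : H * X j₀ = 0 := MvPolynomial.funext fun v => by rw [hc v, map_zero]
        rcases mul_eq_zero.1 h1 with h2 | h2
        · exact hH0 h2
        · exact X_ne_zero j₀ h2
      rw [map_mul, eval_X] at hv
      have hvH : eval v H ≠ 0 := left_ne_zero_of_mul hv
      have hvj : v j₀ ≠ 0 := right_ne_zero_of_mul hv
      let c : Fin r → ℂ := fun l => v (j₀.succAbove l) / v j₀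
      let lam' : Fin r → M := fun l => lam (j₀.succAbove l) - algebraMap ℂ M (c l) * lam j₀
      have hK1 : ∀ l, lam' l / lam j₀ ∈ K := by
        intro l
        have h1 : lam' l / lam j₀ = lam (j₀.succAbove l) / lam j₀ - algebraMap ℂ M (c l) := by
          change (lam (j₀.succAbove l) - algebraMap ℂ M (c l) * lam j₀) / lam j₀ = _
          rw [sub_div, mul_div_cancel_right₀ _ hj]
        rw [h1]
        exact sub_mem (hlam _ _) (K.algebraMap_mem _)
      obtain ⟨h', hh'⟩ := ih lam' (fun i j => by
        have h1 : lam' i / lam' j = (lam' i / lam j₀) / (lam' j / lam j₀) :=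
          (div_div_div_cancel_right₀ hj _ _).symm
        rw [h1]
        exact div_mem (hK1 i) (hK1 j))
      refine ⟨fun i => j₀.insertNth (-∑ l, h' i l * c l) (h' i), fun η hη hη0 => ?_⟩
      -- the projection of the point
      have hproj : (fun l => η (j₀.succAbove l) - c l * η j₀) = 0 := by
        apply hh'
        · intro e' H' hH' hH'0
          have h1 := hη (1 * e') (aeval (fun l : Fin r =>
            (X (j₀.succAbove l) - C (c l) * X j₀ : MvPolynomial (Fin (r + 1)) ℂ)) H')
            (hH'.aeval _ fun l => (isHomogeneous_X _ _).sub (isHomogeneous_C_mul_X _ _)) (by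
              rw [comp_aeval_apply]
              rw [← hH'0]
              refine congrArg (fun g : Fin r → M => aeval g H') ?_
              funext l
              rw [map_sub, map_mul, aeval_X, aeval_X, aeval_C])
          rw [eval_eq, comp_aeval_apply] at h1
          rw [eval_eq, ← h1]
          refine congrArg (fun g : Fin r → ℂ => aeval g H') ?_
          funext l
          rw [map_sub, map_mul, aeval_X, aeval_X, aeval_C]
          rfl
        · intro i
          have h1 := hη0 i
          rw [Fin.sum_univ_succAbove _ j₀] at h1
          simp only [Fin.insertNth_apply_same, Fin.insertNth_apply_succAbove] at h1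
          have h2 : ∑ l, h' i l * (η (j₀.succAbove l) - c l * η j₀) =
              (-∑ l, h' i l * c l) * η j₀ + ∑ l, h' i l * η (j₀.succAbove l) := by
            rw [neg_mul, Finset.sum_mul, ← Finset.sum_neg_distrib, ← Finset.sum_add_distrib]
            refine Finset.sum_congr rfl fun l _ => ?_
            ring
          rw [h2]
          exact h1
      have hηv : η = fun j => (η j₀ / v j₀) * v j := by
        funext j
        rcases Fin.eq_self_or_eq_succAbove j₀ j with h1 | ⟨l, h1⟩
        · rw [h1, div_mul_cancel₀ _ hvj]
        · have h2 := congrFun hproj l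
          have h3 : η (j₀.succAbove l) = c l * η j₀ := sub_eq_zero.1 h2
          rw [h1, h3]
          change v (j₀.succAbove l) / v j₀ * η j₀ = _
          ring
      have h1 := hη e H hH hHl
      rw [hηv, eval_eq, aeval_smul_form hH, ← eval_eq] at h1
      have h2 : η j₀ / v j₀ = 0 := by
        by_contra hc
        exact mul_ne_zero (pow_ne_zero e hc) hvH h1
      rw [hηv]
      funext j
      change η j₀ / v j₀ * v j = 0
      rw [h2, zero_mul]
    · -- few coordinates
      refine ⟨fun i j => if i.1 = j.1 then 1 else 0, fun η _ h => ?_⟩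
      funext j
      have h1 := h ⟨j.1, by have := j.2; omega⟩
      have h2 : ∑ l : Fin (r + 1), (if j.1 = l.1 then (1 : ℂ) else 0) * η l = η j := by
        rw [Finset.sum_eq_single j]
        · rw [if_pos rfl, one_mul]
        · intro b _ hb
          rw [if_neg (fun hc => hb (Fin.ext hc.symm)), zero_mul]
        · intro hb
          exact absurd (Finset.mem_univ _) hb
      exact h2.symm.trans h1

/-- **Linear Noether normalization** -/
theorem noeth : S_NOETH := by
  intro r M _ _ lam _ k hk
  refine noeth_aux (ratioField lam) k (le_of_eq hk) r lam fun i j => ?_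
  exact IntermediateField.subset_adjoin _ _ ⟨i, j, rfl⟩

end

end Pool.Agent.Y454.LI
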